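import Pool.Agent.R627.AC.Main

/-!
Sharp coefficient bounds for alpha-convex (Mocanu) functions.
-/
namespace Pool.Agent.Results.MP_1f2de8_an.AlphaConvex

open Pool.Agent.R627.AC Pool.Agent.R194.Baz

/-- For `0 < α < 1` the function `k(z) = z (1-z)^{-2} ((1-z) ∑ s_k z^k)^α`,
`s_k = ∏_{i=1}^k (α i - 1)/(α i + 1)`, is alpha-convex, its `n`-th Taylor coefficient is the number
`A_n` given by the recursion `Ac`, and `A_n` is the largest value of `|a_n|` over the class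
`M(α)`, for every `n`. -/
theorem result (α : ℝ) (h0 : 0 < α) (h1 : α < 1) :
    IsAC α (kfun α) ∧ ∀ n : ℕ,
      iteratedDeriv n (kfun α) 0 / (n.factorial : ℂ) = (Ac α n : ℂ) ∧
      IsGreatest {x : ℝ | ∃ f : ℂ → ℂ, IsAC α f ∧ x = ‖iteratedDeriv n f 0 / (n.factorial : ℂ)‖}
        (Ac α n) := by
  have hk := (k_all h0 h1 (dom_q0 h0)).1
  refine ⟨hk, fun n => ?_⟩
  have hc := coeff_k h0 h1 n
  rw [coeff_tay] at hc
  refine ⟨hc, ⟨kfun α, hk, ?_⟩, ?_⟩
  · rw [hc, Complex.norm_real, Real.norm_eq_abs, abs_of_nonneg (Ac_nonneg h0 h1 n)]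
  · rintro x ⟨f, hf, rfl⟩
    rw [← coeff_tay]
    exact bound h0 h1 hf n

end Pool.Agent.Results.MP_1f2de8_an.AlphaConvex
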